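import Pool.Agent.EG31.Gallai
import Pool.Agent.TFG.OreLow

/-!
# Two disjoint paths to a set (fan) and a long path through a cycle in a 2-connected graph
-/

set_option autoImplicit false

namespace Pool.Agent.FAN58

open List Pool.Agent.TF82 Pool.Agent.TFC Pool.Agent.TFB Pool.Agent.TFN Pool.Agent.TFG
  Pool.Agent.EG31

universe u

set_option linter.unusedSectionVars false

variable {V : Type u} [DecidableEq V]

theorem seg_take {G : SimpleGraph V} {A B : List V} {z a b : V}
    (h : Seg G (A ++ z :: B) a b) : Seg G (A ++ [z]) a z := by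
  have e : A ++ z :: B = (A ++ [z]) ++ B := by simp
  have hc := h.ch
  have hh := h.hd
  rw [e] at hc hh
  rw [List.isChain_append] at hc
  refine ⟨hc.1, ?_, by simp⟩
  rw [← hh]
  rcases A with _ | ⟨x, A⟩ <;> simp

theorem seg_drop {G : SimpleGraph V} {A B : List V} {z a b : V}
    (h : Seg G (A ++ z :: B) a b) : Seg G (z :: B) z b := by
  have hc := h.ch
  have hl := h.lt
  rw [List.isChain_append] at hc
  refine ⟨hc.2.1, rfl, ?_⟩
  rw [← hl, List.getLast?_append_of_ne_nil _ (by simp)]

theorem seg_glue {G : SimpleGraph V} {A W : List V} {z a b : V}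
    (h1 : Seg G (A ++ [z]) a z) (h2 : Seg G W z b) : Seg G (A ++ W) a b := by
  obtain ⟨B, rfl⟩ : ∃ B, W = z :: B := by
    have := h2.hd
    cases W with
    | nil => simp at this
    | cons w B =>
      simp only [List.head?_cons, Option.some.injEq] at this
      exact ⟨B, by rw [this]⟩
  have hc1 := h1.ch
  rw [List.isChain_append] at hc1
  refine ⟨?_, ?_, ?_⟩
  · rw [List.isChain_append]
    refine ⟨hc1.1, h2.ch, ?_⟩
    intro x hx y hy
    exact hc1.2.2 x hx y (by simpa using hy)
  · have := h1.hd
    rcases A with _ | ⟨x, A⟩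
    · simpa using this
    · simpa using this
  · rw [List.getLast?_append_of_ne_nil _ (by simp)]
    exact h2.lt

theorem seg_cons {G : SimpleGraph V} {Q : List V} {x y b : V} (hxy : G.Adj x y)
    (h : Seg G Q y b) : Seg G (x :: Q) x b := by
  have h1 : Seg G [x] x x := ⟨by simp, rfl, rfl⟩
  exact h1.append h hxy

/-- disjoint paths from `x` and `y` to `C` in `H` -/
def DP (G : SimpleGraph V) (H C : Finset V) (x y : V) : Prop :=
  ∃ (P R : List V) (a b : V), Seg G P x a ∧ Seg G R y b ∧ P.Nodup ∧ R.Nodup ∧
    (∀ z ∈ P, z ∉ R) ∧ (∀ z ∈ P, z ∈ H) ∧ (∀ z ∈ R, z ∈ H) ∧ a ∈ C ∧ b ∈ C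

theorem dp_exists {G : SimpleGraph V} {H C : Finset V} (h2 : Conn2 G H) (hCH : C ⊆ H)
    (hC : 2 ≤ C.card) {x y : V} (hx : x ∈ H) (hy : y ∈ H) (hxy : x ≠ y) : DP G H C x y := by
  classical
  obtain ⟨c0, hc0, hc0y⟩ : ∃ c0 ∈ C, c0 ≠ y := Finset.exists_mem_ne (by omega) y
  have hr : Reach G (H.erase y) x c0 := h2 y hy x (Finset.mem_erase.2 ⟨hxy, hx⟩) c0
    (Finset.mem_erase.2 ⟨hc0y, hCH hc0⟩)
  have key : ∀ x, Reach G (H.erase y) x c0 → x ∈ H.erase y → DP G H C x y := by
    intro x hr
    induction hr using Relation.ReflTransGen.head_induction_on with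
    | refl =>
      intro hx
      rw [Finset.mem_erase] at hx
      obtain ⟨c1, hc1, hc1x⟩ : ∃ c1 ∈ C, c1 ≠ c0 := Finset.exists_mem_ne (by omega) c0
      obtain ⟨R, hRn, hRc, hRh, hRl, hRS⟩ := Reach.path (h2 c0 hx.2 y
        (Finset.mem_erase.2 ⟨hx.1.symm, hy⟩) c1 (Finset.mem_erase.2 ⟨hc1x, hCH hc1⟩))
        (Finset.mem_erase.2 ⟨hx.1.symm, hy⟩)
      refine ⟨[c0], R, c0, c1, ⟨by simp, rfl, rfl⟩, ⟨hRc, hRh, hRl⟩, by simp, hRn, ?_, ?_, ?_,
        hc0, hc1⟩
      · intro z hz hzR
        rw [List.mem_singleton] at hz
        subst hz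
        exact (Finset.mem_erase.1 (hRS z hzR)).1 rfl
      · intro z hz
        rw [List.mem_singleton] at hz
        rw [hz]
        exact hx.2
      · intro z hz
        exact (Finset.mem_erase.1 (hRS z hz)).2
    | @head x x' hxx' _ ih =>
      intro hx
      obtain ⟨P, R, a, b, hP, hR, hPn, hRn, hdis, hPH, hRH, ha, hb⟩ := ih hxx'.2.1
      have hadj : G.Adj x x' := hxx'.2.2
      rw [Finset.mem_erase] at hx
      by_cases hxP : x ∈ P
      · obtain ⟨A, B, rfl⟩ := List.append_of_mem hxP
        refine ⟨x :: B, R, a, b, seg_drop hP, hR, (List.nodup_append.1 hPn).2.1, hRn, ?_, ?_, hRH,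
          ha, hb⟩
        · exact fun z hz => hdis z (List.mem_append_right _ hz)
        · exact fun z hz => hPH z (List.mem_append_right _ hz)
      by_cases hxR : x ∈ R
      swap
      · refine ⟨x :: P, R, a, b, seg_cons hadj hP, hR, List.nodup_cons.2 ⟨hxP, hPn⟩, hRn, ?_, ?_,
          hRH, ha, hb⟩
        · intro z hz
          rcases List.mem_cons.1 hz with rfl | hz
          · exact hxR
          · exact hdis z hz
        · intro z hz
          rcases List.mem_cons.1 hz with rfl | hz
          · exact hx.2
          · exact hPH z hz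
      · obtain ⟨R1, R2, rfl⟩ := List.append_of_mem hxR
        have haP : a ∈ P := List.mem_of_getLast? hP.lt
        have hax : a ≠ x := by
          rintro rfl
          exact hxP haP
        obtain ⟨T, hTn, hTc, hTh, hTl, hTS⟩ := Reach.path (h2 x hx.2 y
          (Finset.mem_erase.2 ⟨hx.1.symm, hy⟩) a (Finset.mem_erase.2 ⟨hax, hCH ha⟩))
          (Finset.mem_erase.2 ⟨hx.1.symm, hy⟩)
        have hxT : x ∉ T := fun h => (Finset.mem_erase.1 (hTS x h)).1 rfl
        obtain ⟨T1, t, T2, rfl, ht, hT1⟩ := first_split (fun z => z ∈ P ∨ z ∈ R2) T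
          ⟨a, List.mem_of_getLast? hTl, Or.inl haP⟩
        have hT : Seg G (T1 ++ t :: T2) y a := ⟨hTc, hTh, hTl⟩
        have hT1n : T1.Nodup := (List.nodup_append.1 hTn).1
        have hTH : ∀ z ∈ T1, z ∈ H := fun z hz =>
          (Finset.mem_erase.1 (hTS z (List.mem_append_left _ hz))).2
        have hRn' := List.nodup_append.1 hRn
        have hxR2 : x ∉ R2 := (List.nodup_cons.1 hRn'.2.1).1
        have hxT1 : x ∉ T1 := fun h => hxT (List.mem_append_left _ h)
        have hxt : x ≠ t := by
          rintro rfl
          exact hxT (by simp)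
        by_cases htP : t ∈ P
        · obtain ⟨P1, P2, rfl⟩ := List.append_of_mem htP
          have hPn' := List.nodup_append.1 hPn
          refine ⟨x :: R2, T1 ++ t :: P2, b, a, seg_drop hR, seg_glue (seg_take hT) (seg_drop hP),
            hRn'.2.1, ?_, ?_, ?_, ?_, hb, ha⟩
          · rw [List.nodup_append]
            refine ⟨hT1n, hPn'.2.1, ?_⟩
            rintro z hz w hw rfl
            exact hT1 z hz (Or.inl (List.mem_append_right _ hw))
          · intro z hz hz'
            rcases List.mem_cons.1 hz with rfl | hz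
            · rcases List.mem_append.1 hz' with h | h
              · exact hxT1 h
              · exact hxP (List.mem_append_right _ h)
            · rcases List.mem_append.1 hz' with h | h
              · exact hT1 z h (Or.inr hz)
              · exact hdis z (List.mem_append_right _ h)
                  (List.mem_append_right _ (List.mem_cons_of_mem _ hz))
          · intro z hz
            exact hRH z (List.mem_append_right _ hz)
          · intro z hz
            rcases List.mem_append.1 hz with h | h
            · exact hTH z h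
            · exact hPH z (List.mem_append_right _ h)
        · have htR : t ∈ R2 := by
            rcases ht with h | h
            · exact absurd h htP
            · exact h
          obtain ⟨Q1, Q2, rfl⟩ := List.append_of_mem htR
          have hR2n : (Q1 ++ t :: Q2).Nodup := (List.nodup_cons.1 hRn'.2.1).2
          have hRt : Seg G (t :: Q2) t b := by
            have h1 := seg_drop hR
            have e : x :: (Q1 ++ t :: Q2) = (x :: Q1) ++ t :: Q2 := by simp
            rw [e] at h1
            exact seg_drop h1
          refine ⟨x :: P, T1 ++ t :: Q2, a, b, seg_cons hadj hP, seg_glue (seg_take hT) hRt,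
            List.nodup_cons.2 ⟨hxP, hPn⟩, ?_, ?_, ?_, ?_, ha, hb⟩
          · rw [List.nodup_append]
            refine ⟨hT1n, (List.nodup_append.1 hR2n).2.1, ?_⟩
            rintro z hz w hw rfl
            exact hT1 z hz (Or.inr (List.mem_append_right _ hw))
          · intro z hz hz'
            rcases List.mem_cons.1 hz with rfl | hz
            · rcases List.mem_append.1 hz' with h | h
              · exact hxT1 h
              · exact hxR2 (List.mem_append_right _ h)
            · rcases List.mem_append.1 hz' with h | h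
              · exact hT1 z h (Or.inl hz)
              · exact hdis z hz (List.mem_append_right _
                  (List.mem_cons_of_mem _ (List.mem_append_right _ h)))
          · intro z hz
            rcases List.mem_cons.1 hz with rfl | hz
            · exact hx.2
            · exact hPH z hz
          · intro z hz
            rcases List.mem_append.1 hz with h | h
            · exact hTH z h
            · exact hRH z (List.mem_append_right _
                (List.mem_cons_of_mem _ (List.mem_append_right _ h)))
  exact key x hr (Finset.mem_erase.2 ⟨hxy, hx⟩)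

/-- the longer arc of a cycle -/
theorem long_arc {G : SimpleGraph V} {c : List V} (hc : CycL G c) {x x' : V} (hx : x ∈ c)
    (hx' : x' ∈ c) (hne : x ≠ x') :
    ∃ Q : List V, Seg G Q x x' ∧ Q.Nodup ∧ (∀ z ∈ Q, z ∈ c) ∧ c.length + 2 ≤ 2 * Q.length := by
  obtain ⟨A, B, hr, -, -⟩ := split_two hc.1 hx hx' hne
  obtain ⟨hn, -, hch, hcl⟩ := hc.of_isRotated hr
  have hperm := hr.perm
  rw [List.isChain_append] at hch
  obtain ⟨hch1, hch2, hch3⟩ := hch
  have hlen : c.length = A.length + B.length + 2 := by
    rw [hperm.length_eq]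
    simp
    omega
  by_cases c1 : c.length + 2 ≤ 2 * (A.length + 2)
  · refine ⟨(x :: A) ++ [x'], ⟨?_, by simp, List.getLast?_concat⟩, ?_, ?_, by simpa using c1⟩
    · rw [List.isChain_append]
      refine ⟨hch1, by simp, ?_⟩
      intro a ha b hb
      exact hch3 a ha b (by simpa using hb)
    · have e : (x :: A) ++ (x' :: B) = ((x :: A) ++ [x']) ++ B := by simp
      rw [e] at hn
      exact (List.nodup_append.1 hn).1
    · intro z hz
      apply hperm.mem_iff.2
      simp only [List.cons_append, List.mem_cons, List.mem_append, List.not_mem_nil, or_false]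
        at hz ⊢
      tauto
  · have c2 : c.length + 2 ≤ 2 * (B.length + 2) := by omega
    refine ⟨x :: (x' :: B).reverse, ⟨?_, rfl, ?_⟩, ?_, ?_, by simpa using c2⟩
    · rw [List.isChain_cons]
      refine ⟨?_, ?_⟩
      · intro y hy
        rw [List.head?_reverse] at hy
        refine (hcl y ?_ x (by simp)).symm
        rw [List.getLast?_append]
        rw [Option.mem_def] at hy ⊢
        rw [hy]
        rfl
      · rw [List.isChain_reverse]
        exact hch2.imp (fun _ _ h => h.symm)
    · rw [List.reverse_cons, ← List.cons_append, List.getLast?_append]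
      simp
    · rw [List.nodup_cons]
      rw [List.nodup_append] at hn
      refine ⟨?_, List.nodup_reverse.2 hn.2.1⟩
      intro h
      exact hn.2.2 x (by simp) x (List.mem_reverse.1 h) rfl
    · intro z hz
      apply hperm.mem_iff.2
      simp only [List.cons_append, List.mem_cons, List.mem_append, List.mem_reverse] at hz ⊢
      tauto

/-- In a 2-connected set any two vertices are joined by a path with at least
`(length + 2) / 2` vertices, for every cycle in the set. -/
theorem fan {G : SimpleGraph V} {H : Finset V} (h2 : Conn2 G H) {c : List V} (hc : CycL G c)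
    (hcH : ∀ z ∈ c, z ∈ H) {x y : V} (hx : x ∈ H) (hy : y ∈ H) (hxy : x ≠ y) :
    ∃ Q : List V, Seg G Q x y ∧ Q.Nodup ∧ (∀ z ∈ Q, z ∈ H) ∧ c.length + 2 ≤ 2 * Q.length := by
  classical
  have hC : 2 ≤ c.toFinset.card := by
    rw [List.toFinset_card_of_nodup hc.1]
    have := hc.2.1
    omega
  obtain ⟨P, R, a, b, hP, hR, hPn, hRn, hdis, hPH, hRH, ha, hb⟩ := dp_exists h2
    (C := c.toFinset) (fun z hz => hcH z (List.mem_toFinset.1 hz)) hC hx hy hxy
  obtain ⟨P1, a', P2, rfl, ha', hP1⟩ := first_split (fun z => z ∈ c) P
    ⟨a, List.mem_of_getLast? hP.lt, List.mem_toFinset.1 ha⟩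
  obtain ⟨R1, b', R2, rfl, hb', hR1⟩ := first_split (fun z => z ∈ c) R
    ⟨b, List.mem_of_getLast? hR.lt, List.mem_toFinset.1 hb⟩
  have hab : a' ≠ b' := by
    rintro rfl
    exact hdis a' (by simp) (by simp)
  obtain ⟨A, hA, hAn, hAc, hAl⟩ := long_arc hc ha' hb' hab
  have h1 : Seg G (P1 ++ A) x b' := seg_glue (seg_take hP) hA
  have h3 : Seg G (R1 ++ (P1 ++ A).reverse) y x := seg_glue (seg_take hR) h1.rev
  refine ⟨(R1 ++ (P1 ++ A).reverse).reverse, h3.rev, ?_, ?_, ?_⟩
  · rw [List.nodup_reverse, List.nodup_append]
    refine ⟨(List.nodup_append.1 hRn).1, ?_, ?_⟩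
    · rw [List.nodup_reverse, List.nodup_append]
      refine ⟨(List.nodup_append.1 hPn).1, hAn, ?_⟩
      rintro z hz w hw rfl
      exact hP1 z hz (hAc z hw)
    · rintro z hz w hw rfl
      rw [List.mem_reverse, List.mem_append] at hw
      rcases hw with h | h
      · exact hdis z (List.mem_append_left _ h) (List.mem_append_left _ hz)
      · exact hR1 z hz (hAc z h)
  · intro z hz
    rw [List.mem_reverse, List.mem_append, List.mem_reverse, List.mem_append] at hz
    rcases hz with h | h | h
    · exact hRH z (List.mem_append_left _ h)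
    · exact hPH z (List.mem_append_left _ h)
    · exact hcH z (hAc z h)
  · simp only [List.length_reverse, List.length_append]
    omega

end Pool.Agent.FAN58
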